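import Pool.Agent.W97.KF.Fin
import Pool.Agent.W370.KE.RED

/-!
# Kurihara's equivariant conjecture fails

For `E : y² = x³ - 11x² - x` (conductor `20`), `p = 7` and the prime `l = 98911`, the triples
`(E, 7, 1)` and `(E, 7, l)` satisfy the standing assumptions of the conjecture, and the formula
for the Fitting ideal of the dual Selmer group cannot hold for both of them.

The idea: `l ≡ 1 mod 7`, `l ≢ 1 mod 49`, the points of `E[7]` are rational over `ℚ_l`, and `7` is a
`7`-th power modulo `l`. If the formula holds for `m = 1`, then (the augmentation of `ϑ_1` being a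
unit) no class of `Sel(E/K_{1,∞})` different from `0` is killed by `7` and invariant. Let `ρ` be the
surjection of `ℛ_l` onto `S = (ℤ/49)[T]/(7T, T²)` with `σ_u ↦ 1 + λ(u) T`, `λ` the Fermat quotient.
If the formula holds for `m = l`, then the image under `ρ` of the Fitting ideal of
`Sel(E/K_{l,∞})^∨` is `7S`. But the classes of `Sel(E/K_{l,∞})` killed by the kernel of `ρ` are
killed by the inverse image of the maximal ideal of `S`, so this image is the ideal of the maximal
minors of a matrix over `S` whose row space contains all vectors with entries in the maximal ideal,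
and such an ideal is never `7S`.
-/

set_option autoImplicit false

open scoped Classical

namespace Pool.Agent.Results.MP_3c6ab9_nt.KuriharaFormulaFails

open Pool.Agent.W97.KF
open Pool.Agent.W97.V20 (E4)

/-- For `E : y² = x³ - 11x² - x`, `p = 7`, the triples `(E, 7, 1)` and `(E, 7, 98911)` satisfy the
assumptions of Kurihara's conjecture, the formula of the conjecture fails for at least one of them,
and so the conjecture is false. -/
theorem result [Fact (Nat.Prime 7)] : Setting E4 7 1 ∧ Setting E4 7 98911 ∧
    ¬ (KuriharaFormula E4 7 1 ∧ KuriharaFormula E4 7 98911) ∧ ¬ KuriharaConjecture := by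
  have h : ¬ (KuriharaFormula E4 7 1 ∧ KuriharaFormula E4 7 98911) := fun h =>
    Pool.Agent.W97.KE.main Pool.Agent.W370.KE.s_red
      ⟨formula h.1 Pool.Agent.W97.KE.setting_one.not_dvd,
        formula h.2 Pool.Agent.W97.KE.setting_l.not_dvd⟩
  have h1 := setting Pool.Agent.W97.KE.setting_one
  have h2 := setting Pool.Agent.W97.KE.setting_l
  exact ⟨h1, h2, h, fun hc => h ⟨hc E4 7 1 h1, hc E4 7 98911 h2⟩⟩

end Pool.Agent.Results.MP_3c6ab9_nt.KuriharaFormulaFails
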